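import Mathlib
import Pool.Agent.Q203.TR.A9

/-!
# Truncation of the coefficients is unbounded in `L_p` for every `0 < p < 2`

`S n P` replaces the coefficients `a_j` of `P`, `j ≤ n`, by `(a_j / |a_j|) min (|a_j|, 1)`.
The supremum `normS n p` of `‖S n P‖_p / ‖P‖_p` over the complex polynomials `P ≠ 0` of degree at
most `n` is unbounded in `n` for every `p` in `(0, 2)`, in fact it grows at least like a power of
`n`: it is at least `c n ^ α` with `α = min (1, 2 / p - 1) / 8`.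

Proof: `P = ∑_{a < n} (1 + i ε Y_a) z ^ a` with `Y_a = ∑_k 2 cos (2 π (J + a) x_k)`, a sum of `D`
cosines with random frequencies `x_k`, `ε` of the order `D ^ (-1 / 2)` and `n` of the order `D ^ 2`.
The polynomial `P` is the sum of `2 D + 1` translated Dirichlet kernels and has a small `L_1` norm.
Its coefficients have modulus at least one, and those of `S P` are `exp (i arctan (ε Y_a))`. The
Fourier coefficients of this function of the second order, at the `D ^ 2` frequencies `x_k + x_l`,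
are of the order `ε ^ 2`, and this gives `D ^ 2` peaks of the height `ε ^ 2 n`, which is the order
of the root of `n`, which cover a positive proportion of the circle.
-/

set_option autoImplicit false

namespace Pool.Agent.Results.MP_2fd64a_an.Unbounded

open MeasureTheory

/-- the norm of `L_p (∂D)`, arc length measure -/
noncomputable def Lp (p : ℝ) (P : Polynomial ℂ) : ℝ :=
  (∫ t in (0 : ℝ)..(2 * Real.pi), ‖P.eval (Complex.exp (t * Complex.I))‖ ^ p) ^ (1 / p)

open Classical in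
/-- `(a / |a|) min (|a|, 1)` with `0 / 0 = 1` -/
noncomputable def trunc (a : ℂ) : ℂ := (if a = 0 then 1 else a / ‖a‖) * (min ‖a‖ 1 : ℝ)

/-- the truncation operator -/
noncomputable def S (n : ℕ) (P : Polynomial ℂ) : Polynomial ℂ :=
  ∑ j ∈ Finset.range (n + 1), Polynomial.monomial j (trunc (P.coeff j))

/-- the supremum of `‖S_n P‖_p / ‖P‖_p` over all complex polynomials `P ≠ 0` of degree `≤ n` -/
noncomputable def normS (n : ℕ) (p : ℝ) : ENNReal :=
  ⨆ (P : Polynomial ℂ) (_ : P ≠ 0) (_ : P.natDegree ≤ n), ENNReal.ofReal (Lp p (S n P) / Lp p P)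

theorem trunc_eq (a : ℂ) : trunc a = Pool.Agent.Q203.TR.trunc a := by
  unfold trunc Pool.Agent.Q203.TR.trunc
  by_cases h0 : a = 0
  · subst h0
    simp
  · have hn : (0 : ℝ) < ‖a‖ := norm_pos_iff.2 h0
    have hn' : (‖a‖ : ℂ) ≠ 0 := by exact_mod_cast hn.ne'
    rw [if_neg h0]
    split_ifs with h
    · rw [min_eq_left h.le, div_mul_cancel₀ _ hn']
    · push Not at h
      rw [min_eq_right h, Complex.ofReal_one, mul_one]

theorem S_eq {n : ℕ} {P : Polynomial ℂ} (h : P.natDegree ≤ n) : S n P =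
    Pool.Agent.Q203.TR.S P := by
  ext j
  rw [Pool.Agent.Q203.TR.S_coeff]
  unfold S
  rw [Polynomial.finsetSum_coeff]
  simp_rw [Polynomial.coeff_monomial]
  rw [Finset.sum_ite_eq' (Finset.range _)]
  split_ifs with hj
  · exact trunc_eq _
  · rw [Finset.mem_range, not_lt] at hj
    rw [Polynomial.coeff_eq_zero_of_natDegree_lt (by omega), Pool.Agent.Q203.TR.trunc_zero]

theorem le_normS {n : ℕ} {p : ℝ} {P : Polynomial ℂ} (hP : P ≠ 0) (hd : P.natDegree ≤ n) :
    ENNReal.ofReal (Lp p (S n P) / Lp p P) ≤ normS n p :=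
  le_iSup_of_le P (le_iSup_of_le hP (le_iSup_of_le hd le_rfl))

/-- **Negative answer to Q1.** For every `p` in `(0, 2)`:
(1) no constant bounds `‖S_n P‖_p / ‖P‖_p` for all `n` and `P`, that is `sup_n normS n p = ∞`;
(2) there is `c > 0` with `normS n p ≥ c n ^ (min (1, 2 / p - 1) / 8)` for all `n ≥ 1`.
(3) In particular there are no exponent `p ∈ (0, 2)` and constant `c` with `normS n p ≤ c` for all
`n`. -/
theorem result :
    (∀ p : ℝ, 0 < p → p < 2 →
      (⨆ n : ℕ, normS n p) = ⊤ ∧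
      ∃ c : ℝ, 0 < c ∧ ∀ n : ℕ, 1 ≤ n →
        ENNReal.ofReal (c * (n : ℝ) ^ (min 1 (2 / p - 1) / 8)) ≤ normS n p) ∧
    ¬ ∃ p : ℝ, 0 < p ∧ p < 2 ∧ ∃ c : ℝ, ∀ n : ℕ, normS n p ≤ ENNReal.ofReal c := by
  have key : ∀ p : ℝ, 0 < p → p < 2 → ∀ c : ℝ, ∃ n : ℕ, ENNReal.ofReal c < normS n p := by
    intro p hp hp2 c
    obtain ⟨n, P, hP0, hPd, hP⟩ := Pool.Agent.Q203.TR.unbounded hp hp2 (max c 0)
    refine ⟨n, lt_of_lt_of_le ?_ (le_normS hP0 hPd)⟩
    have hpos : 0 < Lp p P := Pool.Agent.Q203.TR.Lp_pos hp hp2 hP0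
    rw [S_eq hPd]
    have h1 : max c 0 < Lp p (Pool.Agent.Q203.TR.S P) / Lp p P := by
      rw [lt_div_iff₀ hpos]
      exact hP
    have h2 : 0 < Lp p (Pool.Agent.Q203.TR.S P) / Lp p P := lt_of_le_of_lt (le_max_right _ _) h1
    exact (ENNReal.ofReal_lt_ofReal_iff h2).2 (lt_of_le_of_lt (le_max_left _ _) h1)
  refine ⟨fun p hp hp2 => ⟨?_, ?_⟩, ?_⟩
  · rw [eq_top_iff]
    refine le_of_forall_lt fun b hb => ?_
    obtain ⟨n, hn⟩ := key p hp hp2 b.toReal
    rw [ENNReal.ofReal_toReal hb.ne] at hn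
    exact lt_of_lt_of_le hn (le_iSup (fun n => normS n p) n)
  · obtain ⟨c, hc, h⟩ := Pool.Agent.Q203.TR.lower hp hp2
    refine ⟨c, hc, fun n hn => ?_⟩
    obtain ⟨P, hP0, hPd, hP⟩ := h n hn
    refine le_trans ?_ (le_normS hP0 hPd)
    have hpos : 0 < Lp p P := Pool.Agent.Q203.TR.Lp_pos hp hp2 hP0
    apply ENNReal.ofReal_le_ofReal
    rw [le_div_iff₀ hpos, S_eq hPd]
    exact hP
  · rintro ⟨p, hp, hp2, c, h⟩
    obtain ⟨n, hn⟩ := key p hp hp2 c
    exact absurd (h n) (not_le.2 hn)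

end Pool.Agent.Results.MP_2fd64a_an.Unbounded
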